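import Mathlib

set_option autoImplicit false

namespace Pool.Agent.Results.MP_ce2a64_co.RadioFactor

open SimpleGraph

/-- `G` has a radio labeling with image `{0, …, |V| - 1}`. -/
def RadioGraceful {V : Type} (G : SimpleGraph V) : Prop :=
  ∃ f : V → ℕ, Set.range f = Set.Iio (Nat.card V) ∧
    ∀ u v, u ≠ v → (G.diam : ℤ) + 1 - G.dist u v ≤ |(f u : ℤ) - f v|

/-- Non-adjacency: three triangles, and vertex `0` joined to two vertices of each. -/
def R (u v : Fin 10) : Prop :=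
  u ≠ v ∧ ((u.1 + 2) / 3 = (v.1 + 2) / 3 ∨ (u = 0 ∧ v.1 % 3 ≠ 2) ∨ (v = 0 ∧ u.1 % 3 ≠ 2))

instance : DecidableRel R := fun _ _ => by unfold R; infer_instance

def G : SimpleGraph (Fin 10) where
  Adj u v := u ≠ v ∧ ¬ R u v
  symm := ⟨by decide⟩
  loopless := ⟨by decide⟩

instance : DecidableRel G.Adj := fun u v => inferInstanceAs (Decidable (u ≠ v ∧ ¬ R u v))

def d (u v : Fin 10) : ℕ := if u = v then 0 else if R u v then 2 else 1

theorem edist_G (u v : Fin 10) : G.edist u v = d u v := by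
  unfold d
  split_ifs with h1 h2
  · simp [h1]
  · obtain ⟨w, k1, k2⟩ := (by decide : ∀ u v, R u v → ∃ w, G.Adj u w ∧ G.Adj w v) u v h2
    refine le_antisymm (edist_le (.cons k1 (.cons k2 .nil))) ?_
    have e0 : G.edist u v ≠ 0 := fun h => h1 (edist_eq_zero_iff.1 h)
    have e1 : G.edist u v ≠ 1 := fun h => (edist_eq_one_iff_adj.1 h).2 h2
    exact Order.add_one_le_of_lt (lt_of_le_of_ne (Order.one_le_iff_ne_zero.2 e0) e1.symm)
  · exact edist_eq_one_iff_adj.2 ⟨h1, h2⟩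

theorem calc_d {V : Type} (H : SimpleGraph V) (δ : V → V → ℕ) (h : ∀ u v, H.edist u v = δ u v)
    (D : ℕ) (h1 : ∀ u v, δ u v ≤ D) (h2 : ∃ u v, δ u v = D) :
    H.diam = D ∧ ∀ u v, H.dist u v = δ u v := by
  refine ⟨?_, fun u v => by rw [SimpleGraph.dist, h, ENat.toNat_natCast]⟩
  obtain ⟨u, v, e⟩ := h2
  rw [diam, le_antisymm (ediam_le_of_edist_le fun u v => h u v ▸ Nat.cast_le.2 (h1 u v))
    (e ▸ h u v ▸ edist_le_ediam), ENat.toNat_natCast]

def lab (x : Fin 10 × Fin 3) : ℕ :=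
  [16, 26, 6, 4, 1, 27, 0, 3, 29, 28, 5, 2, 7, 13, 10, 11, 8, 14, 9, 15, 12, 23, 20, 17, 21, 18,
    24, 25, 22, 19].getD (3 * x.1.1 + x.2.1) 0

set_option synthInstance.maxSize 4000 in
theorem noham : ∀ a b, R a b → ∀ c, R b c → c ∉ [a] → ∀ d, R c d → d ∉ [a, b] → ∀ e, R d e →
    e ∉ [a, b, c] → ∀ f, R e f → f ∉ [a, b, c, d] → ∀ g, R f g → g ∉ [a, b, c, d, e] → ∀ h, R g h →
    h ∉ [a, b, c, d, e, f] → ∀ i, R h i → i ∉ [a, b, c, d, e, f, g] → False := by
  decide +kernel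

/-- `G □ K₃` is radio graceful although the connected graph `G` is not. -/
theorem result : ∃ (G : SimpleGraph (Fin 10)) (H : SimpleGraph (Fin 3)), G.Connected ∧
    H.Connected ∧ RadioGraceful (G □ H) ∧ ¬ RadioGraceful G := by
  refine ⟨G, ⊤, (connected_iff_exists_forall_reachable _).2 ⟨0, fun v =>
    edist_ne_top_iff_reachable.1 (edist_G 0 v ▸ ENat.natCast_ne_top _)⟩, connected_top, ?_, ?_⟩
  · obtain ⟨h1, h2⟩ := calc_d (G □ (⊤ : SimpleGraph (Fin 3)))
      (fun x y => d x.1 y.1 + if x.2 = y.2 then 0 else 1) (fun x y => by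
        rw [edist_boxProd, edist_G, edist_top]
        split_ifs <;> simp) 3 (by decide +kernel) ⟨(0, 0), (1, 1), by decide⟩
    refine ⟨lab, ?_, ?_⟩
    · rw [show Nat.card (Fin 10 × Fin 3) = 30 by simp]
      refine subset_antisymm (Set.range_subset_iff.2 (by decide +kernel)) fun i hi => ?_
      exact (by decide +kernel : ∀ i < 30, ∃ x, lab x = i) i hi
    · simp only [h1, h2]
      decide +kernel
  · obtain ⟨h1, h2⟩ := calc_d G d edist_G 2 (by decide) ⟨0, 1, by decide⟩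
    rintro ⟨f, k1, k2⟩
    simp only [h1, h2, Nat.card_fin] at k1 k2
    have : ∀ i, ∃ v, i < 10 → f v = i := fun i => by
      by_cases h : i < 10
      · obtain ⟨v, hv⟩ : i ∈ Set.range f := k1 ▸ h
        exact ⟨v, fun _ => hv⟩
      · exact ⟨0, fun h' => absurd h' h⟩
    choose g hg using this
    have n : ∀ i < 10, ∀ j < i, g i ≠ g j := fun i hi j hj e => by
      have := hg i hi
      rw [e, hg j (by omega)] at this
      omega
    have r : ∀ i < 9, R (g i) (g (i + 1)) := fun i hi => by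
      have t := (n (i + 1) (by omega) i (by omega)).symm
      have := k2 _ _ t
      rw [hg i (by omega), hg (i + 1) (by omega), d, if_neg t] at this
      by_contra c
      rw [if_neg c] at this
      push_cast at this
      simp at this
    refine noham _ _ (r 0 ?_) _ (r 1 ?_) ?_ _ (r 2 ?_) ?_ _ (r 3 ?_) ?_ _ (r 4 ?_) ?_ _ (r 5 ?_) ?_
      _ (r 6 ?_) ?_ _ (r 7 ?_) ?_ <;> simp [n]

end Pool.Agent.Results.MP_ce2a64_co.RadioFactor
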